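import Mathlib

namespace Pool.Agent.H20.Edm

open Matrix

section minors

variable {K : Type*} [Field K] {m n : Type*} [Fintype m] [Fintype n]

lemma exists_rows (M : Matrix m n K) {r : ℕ} (hr : r ≤ M.rank) :
    ∃ f : Fin r → m, LinearIndependent K (M.submatrix f id).row := by
  obtain ⟨κ, a, ha, hsp, hli⟩ := exists_linearIndependent' K M.row
  have : Finite κ := Finite.of_injective a ha
  have : Fintype κ := Fintype.ofFinite κ
  have h1 : Fintype.card κ = M.rank := by
    rw [M.rank_eq_finrank_span_row, ← hsp, linearIndependent_iff_card_eq_finrank_span.mp hli,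
      Set.finrank]
  have h2 : r ≤ Fintype.card κ := h1 ▸ hr
  let e : Fin r → κ := fun i => (Fintype.equivFin κ).symm ⟨i.1, lt_of_lt_of_le i.2 h2⟩
  have he : Function.Injective e := by
    intro i j hij
    have := (Fintype.equivFin κ).symm.injective hij
    exact Fin.ext (by simpa using this)
  refine ⟨a ∘ e, ?_⟩
  exact hli.comp e he

lemma exists_minor (M : Matrix m n K) {r : ℕ} (hr : r ≤ M.rank) :
    ∃ (f : Fin r → m) (g : Fin r → n), (M.submatrix f g).det ≠ 0 := by
  classical
  obtain ⟨f, hf⟩ := exists_rows M hr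
  have h1 : (M.submatrix f id).rank = r := by
    rw [hf.rank_matrix]; simp
  have h2 : r ≤ (M.submatrix f id)ᵀ.rank := by rw [Matrix.rank_transpose, h1]
  obtain ⟨g, hg⟩ := exists_rows (M.submatrix f id)ᵀ h2
  refine ⟨f, g, ?_⟩
  have h3 : ((M.submatrix f id)ᵀ.submatrix g id) = (M.submatrix f g)ᵀ := by
    ext i j; rfl
  rw [h3] at hg
  have h4 := Matrix.linearIndependent_rows_iff_isUnit.1 hg
  rw [Matrix.isUnit_iff_isUnit_det, Matrix.det_transpose] at h4
  exact h4.ne_zero

omit [Fintype m] in
lemma le_rank_of_minor (M : Matrix m n K) {r : ℕ} (f : Fin r → m) (g : Fin r → n)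
    (h : (M.submatrix f g).det ≠ 0) : r ≤ M.rank := by
  have h1 : (M.submatrix f g).rank = r := by
    rw [Matrix.rank_of_det_ne_zero h]; simp
  rw [← h1]
  exact Matrix.rank_submatrix_le M f g

end minors

section symbolic

variable {σ F : Type*} [Field F] {m n : Type*} [Fintype m] [Fintype n]

lemma sym_minor_iff (M : Matrix m n (MvPolynomial σ F)) (r : ℕ) :
    r ≤ (M.map (algebraMap (MvPolynomial σ F) (FractionRing (MvPolynomial σ F)))).rank ↔
      ∃ (f : Fin r → m) (g : Fin r → n), (M.submatrix f g).det ≠ 0 := by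
  have key : ∀ (f : Fin r → m) (g : Fin r → n),
      ((M.map (algebraMap (MvPolynomial σ F) (FractionRing (MvPolynomial σ F)))).submatrix f g).det
        = algebraMap (MvPolynomial σ F) (FractionRing (MvPolynomial σ F)) (M.submatrix f g).det := by
    intro f g
    rw [RingHom.map_det]
    rfl
  have hinj := IsFractionRing.injective (MvPolynomial σ F) (FractionRing (MvPolynomial σ F))
  constructor
  · intro h
    obtain ⟨f, g, hfg⟩ := exists_minor _ h
    refine ⟨f, g, fun h0 => hfg ?_⟩
    rw [key, h0, map_zero]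
  · rintro ⟨f, g, hfg⟩
    refine le_rank_of_minor _ f g ?_
    rw [key]
    intro h0
    exact hfg (hinj (by rw [h0, map_zero]))

omit [Fintype m] [Fintype n] in
lemma eval_minor (M : Matrix m n (MvPolynomial σ F)) {r : ℕ} (x : σ → F)
    (f : Fin r → m) (g : Fin r → n) :
    ((M.map (MvPolynomial.eval x)).submatrix f g).det = MvPolynomial.eval x (M.submatrix f g).det := by
  rw [RingHom.map_det]
  rfl

lemma rank_eval_le (M : Matrix m n (MvPolynomial σ F)) (x : σ → F) :
    (M.map (MvPolynomial.eval x)).rank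
      ≤ (M.map (algebraMap (MvPolynomial σ F) (FractionRing (MvPolynomial σ F)))).rank := by
  obtain ⟨f, g, h⟩ := exists_minor (M.map (MvPolynomial.eval x)) (le_refl _)
  refine (sym_minor_iff M _).2 ⟨f, g, fun h0 => h ?_⟩
  rw [eval_minor, h0, map_zero]

lemma degreeOf_det_le {r : ℕ} (M : Matrix (Fin r) (Fin r) (MvPolynomial σ F)) (k : σ) (d : ℕ)
    (h : ∀ i j, (M i j).degreeOf k ≤ d) : (M.det).degreeOf k ≤ r * d := by
  classical
  rw [Matrix.det_apply]
  refine (MvPolynomial.degreeOf_sum_le _ _ _).trans (Finset.sup_le fun τ _ => ?_)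
  have h1 : (Equiv.Perm.sign τ • ∏ i, M (τ i) i : MvPolynomial σ F)
      = MvPolynomial.C ((Equiv.Perm.sign τ : ℤ) : F) * ∏ i, M (τ i) i := by
    rw [Units.smul_def, zsmul_eq_mul]
    simp
  rw [h1]
  refine (MvPolynomial.degreeOf_C_mul_le _ _ _).trans ?_
  refine (MvPolynomial.degreeOf_prod_le _ _ _).trans ?_
  refine (Finset.sum_le_sum fun i _ => h (τ i) i).trans ?_
  simp

end symbolic

end Pool.Agent.H20.Edm
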