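import Mathlib

namespace Pool.Agent.H20.Edm

open Finset

section poly

variable {ι F : Type*} [Field F]

/-- polynomial functions on `ι → F` -/
def IsPoly (f : (ι → F) → F) : Prop := ∃ P : MvPolynomial ι F, ∀ y, MvPolynomial.eval y P = f y

lemma IsPoly.const (c : F) : IsPoly (fun _ : ι → F => c) := ⟨MvPolynomial.C c, by simp⟩

lemma IsPoly.coord (i : ι) : IsPoly (fun y : ι → F => y i) := ⟨MvPolynomial.X i, by simp⟩

lemma IsPoly.add {f g : (ι → F) → F} (hf : IsPoly f) (hg : IsPoly g) :
    IsPoly (fun y => f y + g y) := by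
  obtain ⟨P, hP⟩ := hf
  obtain ⟨Q, hQ⟩ := hg
  exact ⟨P + Q, by intro y; simp [hP, hQ]⟩

lemma IsPoly.mul {f g : (ι → F) → F} (hf : IsPoly f) (hg : IsPoly g) :
    IsPoly (fun y => f y * g y) := by
  obtain ⟨P, hP⟩ := hf
  obtain ⟨Q, hQ⟩ := hg
  exact ⟨P * Q, by intro y; simp [hP, hQ]⟩

lemma IsPoly.sum {κ : Type*} (s : Finset κ) {f : κ → (ι → F) → F} (hf : ∀ k ∈ s, IsPoly (f k)) :
    IsPoly (fun y => ∑ k ∈ s, f k y) := by
  classical
  induction s using Finset.induction_on with
  | empty => simpa using IsPoly.const (ι := ι) (0 : F)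
  | insert a s ha ih =>
    have h1 := (hf a (by simp)).add (ih (fun k hk => hf k (by simp [hk])))
    refine (by simpa [Finset.sum_insert ha] using h1)

/-- polynomial functions over an infinite field have no zero divisors -/
lemma IsPoly.exists_mul_ne_zero [Infinite F] {f g : (ι → F) → F} (hf : IsPoly f) (hg : IsPoly g)
    (h1 : ∃ y, f y ≠ 0) (h2 : ∃ y, g y ≠ 0) : ∃ y, f y ≠ 0 ∧ g y ≠ 0 := by
  obtain ⟨P, hP⟩ := hf
  obtain ⟨Q, hQ⟩ := hg
  obtain ⟨y1, hy1⟩ := h1
  obtain ⟨y2, hy2⟩ := h2
  have hP0 : P ≠ 0 := by rintro rfl; apply hy1; rw [← hP]; simp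
  have hQ0 : Q ≠ 0 := by rintro rfl; apply hy2; rw [← hQ]; simp
  have hPQ : P * Q ≠ 0 := mul_ne_zero hP0 hQ0
  by_contra hcon
  push Not at hcon
  apply hPQ
  apply MvPolynomial.funext
  intro y
  rw [map_mul, map_zero, hP, hQ]
  by_cases hf0 : f y = 0
  · simp [hf0]
  · simp [hcon y hf0]

end poly

section core

variable {ι F V : Type*} [Field F] [AddCommGroup V] [Module F V]

/-- the linear combination of the maps `a i` with coefficients `y` -/
def comb [Fintype ι] (a : ι → V →ₗ[F] V) (y : ι → F) : V →ₗ[F] V := ∑ i, y i • a i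

lemma comb_apply [Fintype ι] (a : ι → V →ₗ[F] V) (y : ι → F) (v : V) : comb a y v = ∑ i, y i • a i v := by
  simp [comb, LinearMap.sum_apply]

/-- the walk vectors -/
def walk [Fintype ι] (a : ι → V →ₗ[F] V) (g : V →ₗ[F] V) (κ : V) (y : ι → F) : ℕ → V
  | 0 => κ
  | t + 1 => g (comb a y (walk a g κ y t))

/-- one step of the second Wong sequence (on the preimage side) -/
def stepS (a : ι → V →ₗ[F] V) (g : V →ₗ[F] V) (K : Submodule F V) (Y : Submodule F V) :
    Submodule F V := K ⊔ ⨆ i, Y.map (g ∘ₗ a i)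

def seqS (a : ι → V →ₗ[F] V) (g : V →ₗ[F] V) (K : Submodule F V) : ℕ → Submodule F V
  | 0 => ⊥
  | t + 1 => stepS a g K (seqS a g K t)

variable {a : ι → V →ₗ[F] V} {g : V →ₗ[F] V} {K : Submodule F V}

lemma le_stepS (Y : Submodule F V) : K ≤ stepS a g K Y := le_sup_left

lemma mem_stepS (Y : Submodule F V) (i : ι) {v : V} (hv : v ∈ Y) : g (a i v) ∈ stepS a g K Y := by
  refine Submodule.mem_sup_right ?_
  exact Submodule.mem_iSup_of_mem i (Submodule.mem_map.2 ⟨v, hv, rfl⟩)

lemma stepS_mono {Y Y' : Submodule F V} (h : Y ≤ Y') : stepS a g K Y ≤ stepS a g K Y' := by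
  refine sup_le_sup le_rfl (iSup_mono fun i => Submodule.map_mono h)

lemma seqS_mono_succ (t : ℕ) : seqS a g K t ≤ seqS a g K (t + 1) := by
  induction t with
  | zero => exact bot_le
  | succ t ih => exact stepS_mono ih

lemma seqS_mono : Monotone (seqS a g K) := monotone_nat_of_le_succ seqS_mono_succ

lemma walk_mem [Fintype ι] {κ : V} (hκ : κ ∈ K) (y : ι → F) (t : ℕ) :
    walk a g κ y t ∈ seqS a g K (t + 1) := by
  induction t with
  | zero => exact le_stepS _ hκ
  | succ t ih =>
    change g (comb a y (walk a g κ y t)) ∈ stepS a g K (seqS a g K (t + 1))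
    rw [comb_apply, map_sum]
    refine Submodule.sum_mem _ fun i _ => ?_
    rw [map_smul]
    exact Submodule.smul_mem _ _ (mem_stepS _ i ih)

/-- the walk vector at time `t` only depends on the letters that do not kill the `t`-th space -/
lemma walk_congr [Fintype ι] {κ : V} (hκ : κ ∈ K) (t : ℕ) {y y' : ι → F}
    (h : ∀ i, (∃ v ∈ seqS a g K t, a i v ≠ 0) → y i = y' i) :
    walk a g κ y t = walk a g κ y' t := by
  induction t with
  | zero => rfl
  | succ t ih =>
    have h1 := ih (fun i ⟨v, hv, hv'⟩ => h i ⟨v, seqS_mono_succ t hv, hv'⟩)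
    change g (comb a y (walk a g κ y t)) = g (comb a y' (walk a g κ y' t))
    rw [← h1, comb_apply, comb_apply]
    congr 1
    refine Finset.sum_congr rfl fun i _ => ?_
    by_cases h2 : a i (walk a g κ y t) = 0
    · simp [h2]
    · rw [h i ⟨_, walk_mem hκ y t, h2⟩]

lemma walk_isPoly [Fintype ι] (κ : V) (t : ℕ) (φ : V →ₗ[F] F) :
    IsPoly (fun y : ι → F => φ (walk a g κ y t)) := by
  induction t generalizing φ with
  | zero => exact IsPoly.const (φ κ)
  | succ t ih =>
    have h1 : (fun y : ι → F => φ (walk a g κ y (t + 1))) =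
        fun y => ∑ i, y i * (φ ∘ₗ g ∘ₗ a i) (walk a g κ y t) := by
      funext y
      change φ (g (comb a y (walk a g κ y t))) = _
      rw [comb_apply, map_sum, map_sum]
      simp
    rw [h1]
    exact IsPoly.sum _ fun i _ => (IsPoly.coord i).mul (ih _)


lemma sum_pair {M : Type*} [AddCommGroup M] [Module F M] [Fintype ι] [DecidableEq ι]
    (low : ι → Prop) [DecidablePred low] (i k : ι)
    (hi : ¬ low i) (hk : ¬ low k) (α β : F) (f : ι → M) :
    (∑ m, (if low m then (0 : F) else (Pi.single i α + Pi.single k β : ι → F) m) • f m)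
      = α • f i + β • f k := by
  have h1 : ∀ m, (if low m then (0 : F) else (Pi.single i α + Pi.single k β : ι → F) m) • f m
      = (if m = i then α • f i else 0) + (if m = k then β • f k else 0) := by
    intro m
    by_cases hm : low m
    · have hmi : m ≠ i := by rintro rfl; exact hi hm
      have hmk : m ≠ k := by rintro rfl; exact hk hm
      simp [hm, hmi, hmk]
    · by_cases hmi : m = i <;> by_cases hmk : m = k
      · subst hmi; subst hmk; simp [hm, add_smul]
      · subst hmi; simp [hm, hmk]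
      · subst hmk; simp [hm, hmi]
      · simp [hm, hmi, hmk]
  simp_rw [h1]
  rw [Finset.sum_add_distrib]
  simp

end core

end Pool.Agent.H20.Edm
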