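import Pool.Agent.H20.Edm.Step

namespace Pool.Agent.H20.Edm

open Finset

variable {ι F V : Type*} [Fintype ι] [Field F] [Infinite F] [AddCommGroup V] [Module F V]
  [FiniteDimensional F V]
variable {a : ι → V →ₗ[F] V} {g : V →ₗ[F] V} {K : Submodule F V} {B : V →ₗ[F] V →ₗ[F] F} {κ : V}

theorem Setup.all_steps (S : Setup a g K B κ) (t : ℕ) :
    (∀ i, ∀ v ∈ seqS a g K (t + 1), ∀ w ∈ seqS a g K (t + 1), B v (a i w) = 0) ∧
    (∀ i, (∀ v ∈ seqS a g K t, a i v = 0) → (∃ v ∈ seqS a g K (t + 1), a i v ≠ 0) →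
      ∃ y, a i (walk a g κ y t) ≠ 0) := by
  induction t with
  | zero =>
    have h1 : seqS a g K 1 = K := by
      change K ⊔ ⨆ i, (⊥ : Submodule F V).map (g ∘ₗ a i) = K
      simp
    constructor
    · intro i
      rw [h1]
      exact S.hK i
    · intro i _ h
      rw [h1] at h
      exact ⟨fun _ => 0, S.hκ' i h⟩
  | succ t ih => exact S.main_step t ih.1 ih.2

/-- The core theorem: the Wong sequence closes up inside a subspace on which all forms vanish. -/
theorem Setup.exists_subspace (S : Setup a g K B κ) :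
    ∃ U : Submodule F V, K ≤ U ∧ (∀ i, ∀ u ∈ U, g (a i u) ∈ U) ∧
      (∀ i, ∀ v ∈ U, ∀ w ∈ U, B v (a i w) = 0) := by
  have hdir : Directed (· ≤ ·) (fun t => seqS a g K (t + 1)) := by
    refine Monotone.directed_le fun s t h => seqS_mono (Nat.succ_le_succ h)
  refine ⟨⨆ t, seqS a g K (t + 1), ?_, ?_, ?_⟩
  · exact (le_stepS (a := a) (g := g) _).trans (le_iSup (fun t => seqS a g K (t + 1)) 0)
  · intro i u hu
    obtain ⟨t, ht⟩ := (Submodule.mem_iSup_of_directed _ hdir).1 hu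
    exact (Submodule.mem_iSup_of_directed _ hdir).2 ⟨t + 1, mem_stepS _ i ht⟩
  · intro i v hv w hw
    obtain ⟨s, hs⟩ := (Submodule.mem_iSup_of_directed _ hdir).1 hv
    obtain ⟨t, ht⟩ := (Submodule.mem_iSup_of_directed _ hdir).1 hw
    refine (S.all_steps (max s t)).1 i v ?_ w ?_
    · exact seqS_mono (by omega) hs
    · exact seqS_mono (by omega) ht

/-- choice of the generic vector `κ` -/
lemma exists_kappa (a : ι → V →ₗ[F] V) (K : Submodule F V) :
    ∃ κ ∈ K, ∀ i, (∃ v ∈ K, a i v ≠ 0) → a i κ ≠ 0 := by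
  classical
  let s : Finset (Submodule F K) := (Finset.univ.filter (fun i => ∃ v ∈ K, a i v ≠ 0)).image
    (fun i => LinearMap.ker ((a i) ∘ₗ K.subtype))
  have hs : (⊤ : Submodule F K) ∉ s := by
    intro h
    obtain ⟨i, hi, hi'⟩ := Finset.mem_image.1 h
    obtain ⟨v, hv, hv'⟩ := (Finset.mem_filter.1 hi).2
    have : (⟨v, hv⟩ : K) ∈ LinearMap.ker ((a i) ∘ₗ K.subtype) := by rw [hi']; trivial
    exact hv' (by simpa using this)
  have h1 := Subspace.biUnion_ne_univ_of_top_notMem hs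
  obtain ⟨κ, hκ⟩ := (Set.ne_univ_iff_exists_notMem _).1 h1
  refine ⟨κ.1, κ.2, fun i hi h0 => hκ ?_⟩
  simp only [Set.mem_iUnion]
  refine ⟨LinearMap.ker ((a i) ∘ₗ K.subtype), Finset.mem_image.2 ⟨i, by simpa using hi, rfl⟩, ?_⟩
  simpa using h0

end Pool.Agent.H20.Edm
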