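import Mathlib

namespace Pool.Agent.H20.Edm

open Matrix Polynomial

variable {F : Type*} [Field F] {m : Type*} [Fintype m] [DecidableEq m]

lemma adj_kernel (E A G : Matrix m m F) (hG : E * G * E = E) (t : F) (ht : t ≠ 0)
    (hr : (E + t • A).rank ≤ E.rank) (hdet : (1 + t • (G * A)).det ≠ 0)
    (κ : m → F) (hκ : E *ᵥ κ = 0) :
    ((1 - E * G) * A) *ᵥ ((1 + t • (G * A)).adjugate *ᵥ κ) = 0 := by
  set T := 1 + t • (G * A) with hT
  set D := (1 - E * G) * A with hD
  have hM : E + t • A = E * T + t • D := by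
    rw [hT, hD, mul_add, mul_one, sub_mul, one_mul, smul_sub, mul_smul_comm, ← mul_assoc]
    abel
  have hEGM : E * G * (E + t • A) = E * T := by
    rw [hT, mul_add, hG, mul_add, mul_one, mul_smul_comm, mul_smul_comm, mul_assoc E G A]
  have hker : LinearMap.ker (E + t • A).mulVecLin ≤ LinearMap.ker (E * T).mulVecLin := by
    intro z hz
    rw [LinearMap.mem_ker, Matrix.mulVecLin_apply] at hz ⊢
    rw [← hEGM, ← Matrix.mulVec_mulVec, hz, Matrix.mulVec_zero]
  have hrT : (E * T).rank = E.rank := by
    apply Matrix.rank_mul_eq_left_of_isUnit_det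
    exact isUnit_iff_ne_zero.2 hdet
  have h1 := LinearMap.finrank_range_add_finrank_ker (E + t • A).mulVecLin
  have h2 := LinearMap.finrank_range_add_finrank_ker (E * T).mulVecLin
  have heq : LinearMap.ker (E + t • A).mulVecLin = LinearMap.ker (E * T).mulVecLin := by
    apply Submodule.eq_of_le_of_finrank_le hker
    change (E + t • A).rank + _ = _ at h1
    change (E * T).rank + _ = _ at h2
    omega
  set z := T.adjugate *ᵥ κ with hz
  have hTz : T *ᵥ z = T.det • κ := by
    rw [hz, Matrix.mulVec_mulVec, Matrix.mul_adjugate, Matrix.smul_mulVec, Matrix.one_mulVec]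
  have hz1 : (E * T) *ᵥ z = 0 := by
    rw [← Matrix.mulVec_mulVec, hTz, Matrix.mulVec_smul, hκ, smul_zero]
  have hz2 : (E + t • A) *ᵥ z = 0 := by
    have : z ∈ LinearMap.ker (E + t • A).mulVecLin := by
      rw [heq, LinearMap.mem_ker, Matrix.mulVecLin_apply]; exact hz1
    rw [LinearMap.mem_ker, Matrix.mulVecLin_apply] at this
    exact this
  rw [hM, Matrix.add_mulVec, hz1, zero_add, Matrix.smul_mulVec] at hz2
  exact (smul_eq_zero.1 hz2).resolve_left ht

theorem pencil_identity [Infinite F] (E A G : Matrix m m F) (hG : E * G * E = E)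
    (hr : ∀ t : F, (E + t • A).rank ≤ E.rank) (κ : m → F) (hκ : E *ᵥ κ = 0) (j : ℕ) :
    ((1 - E * G) * A) *ᵥ ((G * A) ^ j *ᵥ κ) = 0 := by
  classical
  set D := (1 - E * G) * A with hD
  set N := G * A with hN
  let TX : Matrix m m F[X] := 1 + (X : F[X]) • N.map C
  let cκ : m → F[X] := fun i => C (κ i)
  let α : m → F[X] := TX.adjugate *ᵥ cκ
  have hTXeval : ∀ t : F, TX.map (Polynomial.eval t) = 1 + t • N := by
    intro t
    ext i k
    simp only [TX, Matrix.map_apply, Matrix.add_apply, Matrix.smul_apply, smul_eq_mul,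
      Polynomial.eval_add, Polynomial.eval_mul, Polynomial.eval_X, Polynomial.eval_C]
    congr 1
    by_cases h : i = k
    · subst h; simp
    · simp [h]
  have hdetX : TX.det ≠ 0 := by
    intro h0
    have h1 : (TX.map (Polynomial.eval 0)).det = 0 := by
      have := RingHom.map_det (Polynomial.evalRingHom (0 : F)) TX
      rw [h0, map_zero] at this
      exact this.symm
    rw [hTXeval] at h1
    simp at h1
  have hadj : ∀ t : F, TX.adjugate.map (Polynomial.eval t) = (1 + t • N).adjugate := by
    intro t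
    have := RingHom.map_adjugate (Polynomial.evalRingHom t) TX
    rw [← hTXeval]
    exact this
  have hdeteval : ∀ t : F, Polynomial.eval t TX.det = (1 + t • N).det := by
    intro t
    have := RingHom.map_det (Polynomial.evalRingHom t) TX
    rw [← hTXeval]
    exact this
  have hP : ∀ i, ((D.map C) *ᵥ α) i = 0 := by
    intro i
    have h1 : ((D.map C) *ᵥ α) i * (X * TX.det) = 0 := by
      apply Polynomial.funext
      intro t
      rw [Polynomial.eval_mul, Polynomial.eval_mul, Polynomial.eval_X, hdeteval,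
        Polynomial.eval_zero]
      by_cases ht : t = 0
      · simp [ht]
      by_cases hd : (1 + t • N).det = 0
      · simp [hd]
      have h2 : Polynomial.eval t (((D.map C) *ᵥ α) i)
          = (D *ᵥ ((1 + t • N).adjugate *ᵥ κ)) i := by
        rw [← hadj t]
        simp only [Matrix.mulVec, dotProduct, α, cκ, Polynomial.eval_finsetSum,
          Polynomial.eval_mul, Matrix.map_apply, Polynomial.eval_C]
      rw [h2, adj_kernel E A G hG t ht (hr t) hd κ hκ]
      simp
    rcases mul_eq_zero.1 h1 with h | h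
    · exact h
    · exact absurd h (mul_ne_zero Polynomial.X_ne_zero hdetX)
  let αc : ℕ → m → F := fun k i => (α i).coeff k
  have hDα : ∀ k, D *ᵥ αc k = 0 := by
    intro k
    ext i
    have := congrArg (fun p : F[X] => p.coeff k) (hP i)
    simpa [Matrix.mulVec, dotProduct, Polynomial.finsetSum_coeff, αc] using this
  have hTα : TX *ᵥ α = TX.det • cκ := by
    simp only [α]
    rw [Matrix.mulVec_mulVec, Matrix.mul_adjugate, Matrix.smul_mulVec, Matrix.one_mulVec]
  have hrec : ∀ k, N *ᵥ αc k = TX.det.coeff (k + 1) • κ - αc (k + 1) := by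
    intro k
    ext i
    have h1 := congrArg (fun p : m → F[X] => (p i).coeff (k + 1)) hTα
    have h2 : (TX *ᵥ α) i = α i + X * ((N.map C) *ᵥ α) i := by
      simp only [TX]
      rw [Matrix.add_mulVec, Matrix.one_mulVec, Matrix.smul_mulVec]
      rfl
    simp only [h2, Polynomial.coeff_add, Polynomial.coeff_X_mul, Pi.smul_apply, smul_eq_mul, cκ,
      Polynomial.coeff_mul_C] at h1
    have h3 : (((N.map C) *ᵥ α) i).coeff k = (N *ᵥ αc k) i := by
      simp [Matrix.mulVec, dotProduct, αc]
    rw [h3] at h1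
    simp only [Pi.sub_apply, Pi.smul_apply, smul_eq_mul, αc]
    linear_combination h1
  have h0 : αc 0 = κ := by
    ext i
    have h1 := congrArg (fun p : m → F[X] => (p i).coeff 0) hTα
    have h2 : (TX *ᵥ α) i = α i + X * ((N.map C) *ᵥ α) i := by
      simp only [TX]
      rw [Matrix.add_mulVec, Matrix.one_mulVec, Matrix.smul_mulVec]
      rfl
    have h3 : TX.det.coeff 0 = 1 := by
      rw [Polynomial.coeff_zero_eq_eval_zero, hdeteval]
      simp
    simp only [h2, Polynomial.coeff_add, Polynomial.mul_coeff_zero, Polynomial.coeff_X_zero,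
      zero_mul, add_zero, Pi.smul_apply, smul_eq_mul, cκ, h3, Polynomial.coeff_C_zero, one_mul] at h1
    exact h1
  have hall : ∀ j k, D *ᵥ (N ^ j *ᵥ αc k) = 0 := by
    intro j
    induction j with
    | zero => intro k; simpa using hDα k
    | succ j ih =>
      intro k
      have h5 : N ^ (j + 1) *ᵥ αc k = N ^ j *ᵥ (N *ᵥ αc k) := by
        rw [pow_succ, ← Matrix.mulVec_mulVec]
      rw [h5, hrec, Matrix.mulVec_sub, Matrix.mulVec_sub,
        ih (k + 1), Matrix.mulVec_smul, Matrix.mulVec_smul, ← h0, ih 0]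
      simp
  rw [← h0]
  exact hall j 0

end Pool.Agent.H20.Edm
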