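import Pool.Agent.H20.Edm.Limit
import Pool.Agent.H20.Edm.Pencil

namespace Pool.Agent.H20.Edm

open Matrix Module

variable {F : Type*} [Field F] {n N : ℕ}

/-- The quadratic form of the symmetric matrix `A`, modulo its radical, has Witt index at most
one: if `A` vanishes on `W` as a bilinear form then `A W` has dimension at most one. -/
def WittIndexLeOne (A : Matrix (Fin n) (Fin n) F) : Prop :=
  ∀ W : Submodule F (Fin n → F), (∀ v ∈ W, ∀ w ∈ W, v ⬝ᵥ (A *ᵥ w) = 0) →
    finrank F (W.map A.mulVecLin) ≤ 1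

/-- the sum of the images of `U` under `M0` and all `A i` -/
def imageSpace (M0 : Matrix (Fin n) (Fin n) F) (A : Fin N → Matrix (Fin n) (Fin n) F)
    (U : Submodule F (Fin n → F)) : Submodule F (Fin n → F) :=
  U.map M0.mulVecLin ⊔ ⨆ i, U.map (A i).mulVecLin

/-- symmetric generalised inverses -/
lemma exists_sym_ginverse (E : Matrix (Fin n) (Fin n) F) (hE : E.IsSymm) :
    ∃ G : Matrix (Fin n) (Fin n) F, G.IsSymm ∧ E * G * E = E := by
  obtain ⟨V, U, e, hV, hU, h⟩ := Matrix.exists_rank_normal_form E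
  set D : Matrix (Fin n) (Fin n) F := (fromBlocks 1 0 0 0).submatrix e e with hD
  have hDD : D * D = D := by
    rw [hD, Matrix.submatrix_mul_equiv]
    congr 1
    rw [Matrix.fromBlocks_multiply]
    simp
  let H := U * D * V
  have hH : E * H * E = E := by
    have h1 : V * (E * H * E) * U = V * E * U := by
      calc V * (E * H * E) * U = (V * E * U) * D * (V * E * U) := by
            simp only [H, mul_assoc]
        _ = D * D * D := by rw [h]
        _ = V * E * U := by rw [hDD, hDD, h]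
    have h2 := hU.mul_right_cancel h1
    exact hV.mul_left_cancel h2
  have hET : Eᵀ = E := hE
  have hH2 : E * Hᵀ * E = E := by
    have := congrArg Matrix.transpose hH
    rw [Matrix.transpose_mul, Matrix.transpose_mul, hET, ← mul_assoc] at this
    exact this
  refine ⟨H * E * Hᵀ, ?_, ?_⟩
  · have h5 : ∀ X : Matrix (Fin n) (Fin n) F, (X * E * Xᵀ)ᵀ = X * E * Xᵀ := by
      intro X
      rw [Matrix.transpose_mul, Matrix.transpose_mul, Matrix.transpose_transpose, hET, mul_assoc]
    exact h5 H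
  · calc E * (H * E * Hᵀ) * E = (E * H * E) * Hᵀ * E := by simp only [mul_assoc]
      _ = E := by rw [hH, hH2]

/-- the dot product as a bilinear map -/
def dotB : (Fin n → F) →ₗ[F] (Fin n → F) →ₗ[F] F :=
  LinearMap.mk₂ F (fun v w => v ⬝ᵥ w) (fun _ _ _ => add_dotProduct _ _ _)
    (fun _ _ _ => smul_dotProduct _ _ _) (fun _ _ _ => dotProduct_add _ _ _)
    (fun _ _ _ => dotProduct_smul _ _ _)

lemma dotB_apply (v w : Fin n → F) : dotB v w = v ⬝ᵥ w := rfl

lemma sym_dot {A : Matrix (Fin n) (Fin n) F} (hA : A.IsSymm) (v w : Fin n → F) :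
    (A *ᵥ v) ⬝ᵥ w = v ⬝ᵥ (A *ᵥ w) := by
  rw [Matrix.dotProduct_mulVec, ← Matrix.mulVec_transpose, hA.eq]

lemma comb_mulVec (A : Fin N → Matrix (Fin n) (Fin n) F) (y : Fin N → F) (v : Fin n → F) :
    comb (fun i => (A i).mulVecLin) y v = (∑ i, y i • A i) *ᵥ v := by
  rw [comb_apply, Matrix.sum_mulVec]
  refine Finset.sum_congr rfl fun i _ => ?_
  rw [Matrix.smul_mulVec]; rfl

lemma walk_mulVec (A : Fin N → Matrix (Fin n) (Fin n) F) (G : Matrix (Fin n) (Fin n) F)
    (κ : Fin n → F) (y : Fin N → F) (t : ℕ) :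
    walk (fun i => (A i).mulVecLin) G.mulVecLin κ y t = (G * ∑ i, y i • A i) ^ t *ᵥ κ := by
  induction t with
  | zero => simp [walk]
  | succ t ih =>
    change G.mulVecLin (comb _ y (walk _ _ κ y t)) = _
    rw [ih, comb_mulVec, Matrix.mulVecLin_apply, pow_succ', ← Matrix.mulVec_mulVec,
      ← Matrix.mulVec_mulVec]

theorem exists_shrunk [Infinite F] (h2 : (2 : F) ≠ 0) (M0 : Matrix (Fin n) (Fin n) F)
    (h0 : M0.IsSymm) (A : Fin N → Matrix (Fin n) (Fin n) F) (hA : ∀ i, (A i).IsSymm)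
    (hW : ∀ i, WittIndexLeOne (A i)) (r : ℕ)
    (hr : ∀ z : Fin N → F, (M0 + ∑ i, z i • A i).rank < r) :
    ∃ U : Submodule F (Fin n → F), finrank F (imageSpace M0 A U) + n < r + finrank F U := by
  classical
  -- a point of maximal rank
  obtain ⟨z0, hz0⟩ : ∃ z0 : Fin N → F, ∀ z : Fin N → F,
      (M0 + ∑ i, z i • A i).rank ≤ (M0 + ∑ i, z0 i • A i).rank := by
    let S : Set ℕ := {k | ∃ z : Fin N → F, (M0 + ∑ i, z i • A i).rank = k}
    have hne : S.Nonempty := ⟨_, 0, rfl⟩
    have hbd : BddAbove S := ⟨r, by rintro k ⟨z, rfl⟩; exact (hr z).le⟩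
    obtain ⟨z0, h⟩ := Nat.sSup_mem hne hbd
    exact ⟨z0, fun z => by rw [h]; exact le_csSup hbd ⟨z, rfl⟩⟩
  set E := M0 + ∑ i, z0 i • A i with hEdef
  have hE : E.IsSymm := by
    change Eᵀ = E
    rw [hEdef, Matrix.transpose_add, h0.eq, Matrix.transpose_sum]
    congr 1
    refine Finset.sum_congr rfl fun i _ => ?_
    rw [Matrix.transpose_smul, (hA i).eq]
  obtain ⟨G, hG, hEGE⟩ := exists_sym_ginverse E hE
  have hpen : ∀ (y : Fin N → F) (κ : Fin n → F), E *ᵥ κ = 0 → ∀ j,
      ((1 - E * G) * ∑ i, y i • A i) *ᵥ ((G * ∑ i, y i • A i) ^ j *ᵥ κ) = 0 := by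
    intro y κ hκ j
    refine pencil_identity E _ G hEGE (fun t => ?_) κ hκ j
    have : E + t • ∑ i, y i • A i = M0 + ∑ i, (z0 i + t * y i) • A i := by
      rw [hEdef, add_assoc, Finset.smul_sum, ← Finset.sum_add_distrib]
      congr 1
      refine Finset.sum_congr rfl fun i _ => ?_
      rw [add_smul, smul_smul]
    rw [this]
    exact hz0 _
  have hpen' : ∀ (y : Fin N → F) (κ : Fin n → F), E *ᵥ κ = 0 → ∀ j,
      (∑ i, y i • A i) *ᵥ ((G * ∑ i, y i • A i) ^ j *ᵥ κ)
        = E *ᵥ (G *ᵥ ((∑ i, y i • A i) *ᵥ ((G * ∑ i, y i • A i) ^ j *ᵥ κ))) := by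
    intro y κ hκ j
    have h := hpen y κ hκ j
    rw [← Matrix.mulVec_mulVec, Matrix.sub_mulVec, Matrix.one_mulVec, sub_eq_zero,
      ← Matrix.mulVec_mulVec] at h
    exact h
  let a : Fin N → (Fin n → F) →ₗ[F] (Fin n → F) := fun i => (A i).mulVecLin
  let K : Submodule F (Fin n → F) := LinearMap.ker E.mulVecLin
  have hKmem : ∀ v, v ∈ K ↔ E *ᵥ v = 0 := by
    intro v
    simp only [K, LinearMap.mem_ker, Matrix.mulVecLin_apply]
  have hWmap : ∀ i (W : Submodule F (Fin n → F)), (∀ v ∈ W, ∀ w ∈ W, dotB v (a i w) = 0) →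
      ∀ v ∈ W, a i v ≠ 0 → ∀ w ∈ W, ∃ c : F, a i w = c • a i v := by
    intro i W hiso v hv hv0 w hw
    have h1 : finrank F (W.map (a i)) ≤ 1 := hW i W hiso
    have hvm : a i v ∈ W.map (a i) := ⟨v, hv, rfl⟩
    have hwm : a i w ∈ W.map (a i) := ⟨w, hw, rfl⟩
    have hne : (⟨a i v, hvm⟩ : W.map (a i)) ≠ 0 := by
      intro h; exact hv0 (congrArg Subtype.val h)
    have h3 : finrank F (W.map (a i)) = 1 := by
      refine le_antisymm h1 ?_
      exact Nat.succ_le_of_lt (Module.finrank_pos_iff_exists_ne_zero.2 ⟨_, hne⟩)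
    obtain ⟨c, hc⟩ := (finrank_eq_one_iff_of_nonzero' _ hne).1 h3 ⟨a i w, hwm⟩
    exact ⟨c, (congrArg Subtype.val hc).symm⟩
  obtain ⟨κ, hκ, hκ'⟩ := exists_kappa a K
  have hS : Setup a G.mulVecLin K dotB κ := by
    refine ⟨h2, ?_, ?_, ?_, hκ, hκ', ?_, ?_, hWmap⟩
    · intro x y; exact dotProduct_comm x y
    · intro i x y; exact sym_dot (hA i) x y
    · intro x y; exact sym_dot hG x y
    · intro y j
      rw [walk_mulVec, comb_mulVec, hpen' y κ ((hKmem κ).1 hκ) j, dotB_apply, ← sym_dot hE,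
        (hKmem κ).1 hκ, zero_dotProduct]
    · intro i v hv w hw
      have h := hpen' (Pi.single i 1) w ((hKmem w).1 hw) 0
      have hsum : (∑ j, (Pi.single i 1 : Fin N → F) j • A j) = A i := by
        rw [Finset.sum_eq_single i]
        · simp
        · intro j _ hj; simp [Pi.single_eq_of_ne hj]
        · intro h; exact absurd (Finset.mem_univ i) h
      rw [hsum, pow_zero, Matrix.one_mulVec] at h
      change v ⬝ᵥ (A i *ᵥ w) = 0
      rw [h, ← sym_dot hE, (hKmem v).1 hv, zero_dotProduct]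
  obtain ⟨U, hKU, hUg, hUB⟩ := hS.exists_subspace
  refine ⟨U, ?_⟩
  -- every `A i` maps `U` into `E U`
  have hAU : ∀ i, ∀ u ∈ U, A i *ᵥ u = E *ᵥ (G *ᵥ (A i *ᵥ u)) := by
    intro i u hu
    rw [← sub_eq_zero]
    apply dotProduct_eq_zero
    intro x
    have h1 : (x - G *ᵥ (E *ᵥ x)) ∈ K := by
      rw [hKmem, Matrix.mulVec_sub, Matrix.mulVec_mulVec, Matrix.mulVec_mulVec,
        hEGE, sub_self]
    have h3 := hUB i _ (hKU h1) u hu
    change (x - G *ᵥ (E *ᵥ x)) ⬝ᵥ (A i *ᵥ u) = 0 at h3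
    rw [sub_dotProduct, sym_dot hG, sym_dot hE] at h3
    rw [dotProduct_comm, dotProduct_sub]
    exact h3
  have hle : imageSpace M0 A U ≤ U.map E.mulVecLin := by
    have h1 : ∀ i, U.map (A i).mulVecLin ≤ U.map E.mulVecLin := by
      rintro i _ ⟨u, hu, rfl⟩
      exact ⟨G *ᵥ (A i *ᵥ u), hUg i u hu, (hAU i u hu).symm⟩
    refine sup_le ?_ (iSup_le h1)
    rintro _ ⟨u, hu, rfl⟩
    have h3 : M0 *ᵥ u = E *ᵥ u - ∑ i, z0 i • (A i *ᵥ u) := by
      rw [hEdef, Matrix.add_mulVec, Matrix.sum_mulVec]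
      simp only [Matrix.smul_mulVec]
      abel
    rw [Matrix.mulVecLin_apply, h3]
    refine Submodule.sub_mem _ ⟨u, hu, rfl⟩ (Submodule.sum_mem _ fun i _ => ?_)
    exact Submodule.smul_mem _ _ (h1 i ⟨u, hu, rfl⟩)
  have h4 : finrank F (U.map E.mulVecLin) + finrank F K = finrank F U := by
    have h5 := LinearMap.finrank_range_add_finrank_ker (E.mulVecLin.domRestrict U)
    rw [LinearMap.range_domRestrict] at h5
    have h6 : finrank F (LinearMap.ker (E.mulVecLin.domRestrict U)) = finrank F K := by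
      have h7 : LinearMap.ker (E.mulVecLin.domRestrict U) = K.comap U.subtype := by
        ext x; rfl
      rw [h7]
      exact (Submodule.comapSubtypeEquivOfLe hKU).finrank_eq
    rw [h6] at h5
    exact h5
  have h8 : E.rank + finrank F K = n := by
    have := LinearMap.finrank_range_add_finrank_ker E.mulVecLin
    simpa [Matrix.rank] using this
  have h9 := Submodule.finrank_mono hle
  have h10 := hr z0
  change E.rank < r at h10
  omega

theorem rank_lt_of_shrunk (M0 : Matrix (Fin n) (Fin n) F)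
    (A : Fin N → Matrix (Fin n) (Fin n) F) (r : ℕ) (U : Submodule F (Fin n → F))
    (hU : finrank F (imageSpace M0 A U) + n < r + finrank F U) (z : Fin N → F) :
    (M0 + ∑ i, z i • A i).rank < r := by
  set M := M0 + ∑ i, z i • A i with hM
  have hle : U.map M.mulVecLin ≤ imageSpace M0 A U := by
    rintro _ ⟨u, hu, rfl⟩
    have h3 : M.mulVecLin u = M0.mulVecLin u + ∑ i, z i • (A i).mulVecLin u := by
      rw [Matrix.mulVecLin_apply, hM, Matrix.add_mulVec, Matrix.sum_mulVec]
      simp only [Matrix.smul_mulVec, Matrix.mulVecLin_apply]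
    rw [h3]
    refine Submodule.add_mem _ (Submodule.mem_sup_left ⟨u, hu, rfl⟩) ?_
    refine Submodule.sum_mem _ fun i _ => Submodule.smul_mem _ _ ?_
    exact Submodule.mem_sup_right (Submodule.mem_iSup_of_mem i ⟨u, hu, rfl⟩)
  have h1 := Submodule.finrank_mono hle
  have h4 : finrank F U ≤ finrank F (U.map M.mulVecLin) + finrank F (LinearMap.ker M.mulVecLin) := by
    have h5 := LinearMap.finrank_range_add_finrank_ker (M.mulVecLin.domRestrict U)
    rw [LinearMap.range_domRestrict] at h5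
    have h6 : finrank F (LinearMap.ker (M.mulVecLin.domRestrict U))
        ≤ finrank F (LinearMap.ker M.mulVecLin) := by
      have h7 : (LinearMap.ker (M.mulVecLin.domRestrict U)).map U.subtype
          ≤ LinearMap.ker M.mulVecLin := by
        rintro _ ⟨u, hu, rfl⟩
        exact hu
      have h8 := Submodule.finrank_mono h7
      have h9 : finrank F ((LinearMap.ker (M.mulVecLin.domRestrict U)).map U.subtype)
          = finrank F (LinearMap.ker (M.mulVecLin.domRestrict U)) :=
        (Submodule.equivMapOfInjective U.subtype U.injective_subtype _).finrank_eq.symm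
      rwa [h9] at h8
    omega
  have h8 : M.rank + finrank F (LinearMap.ker M.mulVecLin) = n := by
    have := LinearMap.finrank_range_add_finrank_ker M.mulVecLin
    simpa [Matrix.rank] using this
  omega

end Pool.Agent.H20.Edm
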