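import Pool.Agent.H20.Edm.Core

namespace Pool.Agent.H20.Edm

open Finset

variable {ι F V : Type*} [Fintype ι] [Field F] [Infinite F] [AddCommGroup V] [Module F V]

/-- The standing hypotheses of the core argument. -/
structure Setup (a : ι → V →ₗ[F] V) (g : V →ₗ[F] V) (K : Submodule F V)
    (B : V →ₗ[F] V →ₗ[F] F) (κ : V) : Prop where
  two : (2 : F) ≠ 0
  symm : ∀ x y, B x y = B y x
  ha : ∀ i x y, B (a i x) y = B x (a i y)
  hg : ∀ x y, B (g x) y = B x (g y)
  hκ : κ ∈ K
  hκ' : ∀ i, (∃ v ∈ K, a i v ≠ 0) → a i κ ≠ 0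
  hid : ∀ (y : ι → F) (j : ℕ), B κ (comb a y (walk a g κ y j)) = 0
  hK : ∀ i, ∀ v ∈ K, ∀ w ∈ K, B v (a i w) = 0
  hW : ∀ i (W : Submodule F V), (∀ v ∈ W, ∀ w ∈ W, B v (a i w) = 0) →
    ∀ v ∈ W, a i v ≠ 0 → ∀ w ∈ W, ∃ c : F, a i w = c • a i v

variable {a : ι → V →ₗ[F] V} {g : V →ₗ[F] V} {K : Submodule F V} {B : V →ₗ[F] V →ₗ[F] F} {κ : V}

omit [Infinite F] in
lemma Setup.comb_adj (S : Setup a g K B κ) (y : ι → F) (v w : V) :
    B (comb a y v) w = B v (comb a y w) := by
  rw [comb_apply, comb_apply, map_sum, map_sum, LinearMap.sum_apply]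
  refine Finset.sum_congr rfl fun i _ => ?_
  rw [map_smul, map_smul, LinearMap.smul_apply, S.ha]

omit [Infinite F] in
lemma Setup.walk_identity (S : Setup a g K B κ) (y : ι → F) (s s' : ℕ) :
    B (walk a g κ y s) (comb a y (walk a g κ y s')) = 0 := by
  induction s generalizing s' with
  | zero => exact S.hid y s'
  | succ s ih =>
    have h1 : B (walk a g κ y (s + 1)) (comb a y (walk a g κ y s'))
        = B (walk a g κ y s) (comb a y (walk a g κ y (s' + 1))) := by
      change B (g (comb a y (walk a g κ y s))) (comb a y (walk a g κ y s'))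
        = B (walk a g κ y s) (comb a y (g (comb a y (walk a g κ y s'))))
      rw [S.hg, S.comb_adj]
    rw [h1]
    exact ih (s' + 1)

omit [Infinite F] in
/-- the form `Ψ` is symmetric -/
lemma Setup.psi_symm (S : Setup a g K B κ) (m : ι) (p q : V) :
    B (g p) (a m (g q)) = B (g q) (a m (g p)) := by
  rw [← S.ha, S.symm]

/-- simultaneous nonvanishing -/
lemma exists_simul [FiniteDimensional F V] (t : ℕ) (i k : ι)
    (hi : ∃ y : ι → F, a i (walk a g κ y t) ≠ 0) (hk : ∃ y : ι → F, a k (walk a g κ y t) ≠ 0) :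
    ∃ y : ι → F, a i (walk a g κ y t) ≠ 0 ∧ a k (walk a g κ y t) ≠ 0 := by
  obtain ⟨y1, h1⟩ := hi
  obtain ⟨y2, h2⟩ := hk
  obtain ⟨φ, hφ⟩ : ∃ φ : V →ₗ[F] F, φ (a i (walk a g κ y1 t)) ≠ 0 := by
    by_contra hcon
    push Not at hcon
    exact h1 ((Module.forall_dual_apply_eq_zero_iff F _).1 hcon)
  obtain ⟨ψ, hψ⟩ : ∃ ψ : V →ₗ[F] F, ψ (a k (walk a g κ y2 t)) ≠ 0 := by
    by_contra hcon
    push Not at hcon
    exact h2 ((Module.forall_dual_apply_eq_zero_iff F _).1 hcon)
  obtain ⟨y, h3, h4⟩ := IsPoly.exists_mul_ne_zero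
    (walk_isPoly (a := a) (g := g) κ t (φ ∘ₗ a i)) (walk_isPoly (a := a) (g := g) κ t (ψ ∘ₗ a k))
    ⟨y1, by simpa using hφ⟩ ⟨y2, by simpa using hψ⟩
  refine ⟨y, ?_, ?_⟩
  · intro h0; apply h3; simp [h0]
  · intro h0; apply h4; simp [h0]

/-- The inductive step. -/
theorem Setup.main_step [FiniteDimensional F V] (S : Setup a g K B κ) (t : ℕ)
    (P1 : ∀ i, ∀ v ∈ seqS a g K (t + 1), ∀ w ∈ seqS a g K (t + 1), B v (a i w) = 0)
    (P2 : ∀ i, (∀ v ∈ seqS a g K t, a i v = 0) → (∃ v ∈ seqS a g K (t + 1), a i v ≠ 0) →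
      ∃ y, a i (walk a g κ y t) ≠ 0) :
    (∀ i, ∀ v ∈ seqS a g K (t + 2), ∀ w ∈ seqS a g K (t + 2), B v (a i w) = 0) ∧
    (∀ i, (∀ v ∈ seqS a g K (t + 1), a i v = 0) → (∃ v ∈ seqS a g K (t + 2), a i v ≠ 0) →
      ∃ y, a i (walk a g κ y (t + 1)) ≠ 0) := by
  classical
  set Y := seqS a g K (t + 1) with hY
  set Y' := seqS a g K t with hY'
  have hYY : Y' ≤ Y := seqS_mono_succ t
  have hstep : ∀ i, ∀ v ∈ Y', g (a i v) ∈ Y := fun i v hv => mem_stepS (a := a) (g := g) Y' i hv
  have hKY : K ≤ Y := le_stepS (a := a) (g := g) Y'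
  let low : ι → Prop := fun i => ∃ v ∈ Y', a i v ≠ 0
  -- letters that are not low kill `Y'`
  have hnl : ∀ i, ¬ low i → ∀ v ∈ Y', a i v = 0 := by
    intro i hi v hv
    by_contra h0
    exact hi ⟨v, hv, h0⟩
  have hline : ∀ i, ∀ v ∈ Y, a i v ≠ 0 → ∀ w ∈ Y, ∃ c : F, a i w = c • a i v :=
    fun i v hv h0 w hw => S.hW i Y (P1 i) v hv h0 w hw
  have hlow : ∀ i, low i → ∀ w ∈ Y, ∃ v' ∈ Y', a i w = a i v' := by
    rintro i ⟨v, hv, h0⟩ w hw
    obtain ⟨c, hc⟩ := hline i v (hYY hv) h0 w hw
    exact ⟨c • v, Y'.smul_mem c hv, by rw [hc, map_smul]⟩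
  have hglow : ∀ i, low i → ∀ w ∈ Y, g (a i w) ∈ Y := by
    intro i hi w hw
    obtain ⟨v', hv', h⟩ := hlow i hi w hw
    rw [h]
    exact hstep i v' hv'
  -- (a') for a low letter
  have ha1 : ∀ i l, low i → ∀ v ∈ Y, ∀ w ∈ Y, B (a i v) (g (a l w)) = 0 := by
    intro i l hi v hv w hw
    rw [← S.hg]
    exact P1 l _ (hglow i hi v hv) w hw
  have ha2 : ∀ i l, low l → ∀ v ∈ Y, ∀ w ∈ Y, B (a i v) (g (a l w)) = 0 := by
    intro i l hl v hv w hw
    rw [S.symm, S.hg]
    exact ha1 l i hl w hw v hv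
  -- mixing
  let mix : (ι → F) → (ι → F) → ι → F := fun y z i => if low i then y i else z i
  have hmix : ∀ y z, walk a g κ (mix y z) t = walk a g κ y t := by
    intro y z
    apply walk_congr S.hκ
    intro i hi
    have : low i := hi
    simp [mix, this]
  let q : (ι → F) → V := fun y => ∑ i, (if low i then y i else 0) • a i (walk a g κ y t)
  let r : (ι → F) → (ι → F) → V := fun y z =>
    ∑ i, (if low i then (0 : F) else z i) • a i (walk a g κ y t)
  have hcomb : ∀ y z, comb a (mix y z) (walk a g κ (mix y z) t) = q y + r y z := by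
    intro y z
    rw [hmix, comb_apply, ← Finset.sum_add_distrib]
    refine Finset.sum_congr rfl fun i _ => ?_
    by_cases hi : low i <;> simp [mix, hi]
  have hwY : ∀ y, walk a g κ y t ∈ Y := fun y => walk_mem S.hκ y t
  have hgq : ∀ y, g (q y) ∈ Y := by
    intro y
    simp only [q, map_sum, map_smul]
    refine Submodule.sum_mem _ fun i _ => ?_
    by_cases hi : low i
    · exact Submodule.smul_mem _ _ (hglow i hi _ (hwY y))
    · simp [hi]
  -- `B (a l w) (g r) = 0` once (a') is known; first `B q (g r) = 0`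
  have hqr : ∀ y z, B (q y) (g (r y z)) = 0 := by
    intro y z
    have h1 : ∀ i, low i → B (a i (walk a g κ y t)) (g (r y z)) = 0 := by
      intro i hi
      simp only [r, map_sum, map_smul]
      refine Finset.sum_eq_zero fun j _ => ?_
      rw [ha1 i j hi _ (hwY y) _ (hwY y), smul_zero]
    have h2 : B (q y) (g (r y z)) = ∑ i, (if low i then y i else 0) *
        B (a i (walk a g κ y t)) (g (r y z)) := by
      simp only [q, map_sum, map_smul, LinearMap.sum_apply, LinearMap.smul_apply, smul_eq_mul]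
    rw [h2]
    refine Finset.sum_eq_zero fun i _ => ?_
    by_cases hi : low i
    · rw [h1 i hi, mul_zero]
    · simp [hi]
  have hqq : ∀ y, B (q y) (g (q y)) = 0 := by
    intro y
    have h1 : ∀ i, low i → B (a i (walk a g κ y t)) (g (q y)) = 0 := by
      intro i hi
      simp only [q, map_sum, map_smul]
      refine Finset.sum_eq_zero fun j _ => ?_
      rw [ha1 i j hi _ (hwY y) _ (hwY y), smul_zero]
    have h2 : B (q y) (g (q y)) = ∑ i, (if low i then y i else 0) *
        B (a i (walk a g κ y t)) (g (q y)) := by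
      conv_lhs => rw [show q y = ∑ i, (if low i then y i else 0) • a i (walk a g κ y t) from rfl]
      rw [map_sum, LinearMap.sum_apply]
      refine Finset.sum_congr rfl fun i _ => ?_
      rw [map_smul, LinearMap.smul_apply, smul_eq_mul]
    rw [h2]
    refine Finset.sum_eq_zero fun i _ => ?_
    by_cases hi : low i
    · rw [h1 i hi, mul_zero]
    · simp [hi]
  have hrr : ∀ y z, B (r y z) (g (r y z)) = 0 := by
    intro y z
    have h1 := S.walk_identity (mix y z) t (t + 1)
    have h2 : B (comb a (mix y z) (walk a g κ (mix y z) t))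
        (g (comb a (mix y z) (walk a g κ (mix y z) t))) = 0 := by
      rw [S.comb_adj]
      exact h1
    rw [hcomb] at h2
    have h3 : B (r y z) (g (q y)) = 0 := by rw [← S.hg, S.symm]; exact hqr y z
    simp only [map_add, LinearMap.add_apply, hqr, hqq, h3] at h2
    simpa using h2
  have hrpair : ∀ y i k, ¬ low i → ¬ low k → ∀ α β : F,
      r y (Pi.single i α + Pi.single k β) = α • a i (walk a g κ y t) + β • a k (walk a g κ y t) := by
    intro y i k hi hk α β
    exact sum_pair low i k hi hk α β _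
  have hanl : ∀ y i k, ¬ low i → ¬ low k →
      B (a i (walk a g κ y t)) (g (a k (walk a g κ y t))) = 0 := by
    intro y i k hi hk
    have h10 := hrr y (Pi.single i 1 + Pi.single k 0)
    have h01 := hrr y (Pi.single i 0 + Pi.single k 1)
    have h11 := hrr y (Pi.single i 1 + Pi.single k 1)
    rw [hrpair y i k hi hk] at h10 h01 h11
    simp only [one_smul, zero_smul, add_zero, zero_add, map_add, LinearMap.add_apply] at h10 h01 h11
    rw [h10, h01] at h11
    have hs : B (a k (walk a g κ y t)) (g (a i (walk a g κ y t)))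
        = B (a i (walk a g κ y t)) (g (a k (walk a g κ y t))) := by rw [← S.hg, S.symm]
    rw [hs] at h11
    have : (2 : F) * B (a i (walk a g κ y t)) (g (a k (walk a g κ y t))) = 0 := by
      rw [two_mul]; simpa using h11
    rcases mul_eq_zero.1 this with h | h
    · exact absurd h S.two
    · exact h
  -- (a')
  have haa : ∀ i l, ∀ v ∈ Y, ∀ w ∈ Y, B (a i v) (g (a l w)) = 0 := by
    intro i l v hv w hw
    by_cases hi : low i
    · exact ha1 i l hi v hv w hw
    by_cases hl : low l
    · exact ha2 i l hl v hv w hw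
    by_cases hiv : a i v = 0
    · simp [hiv]
    by_cases hlw : a l w = 0
    · simp [hlw]
    obtain ⟨y, h1, h2⟩ := exists_simul (a := a) (g := g) (κ := κ) t i l
      (P2 i (hnl i hi) ⟨v, hv, hiv⟩) (P2 l (hnl l hl) ⟨w, hw, hlw⟩)
    obtain ⟨c, hc⟩ := hline i _ (hwY y) h1 v hv
    obtain ⟨d, hd⟩ := hline l _ (hwY y) h2 w hw
    rw [hc, hd]
    simp [hanl y i l hi hl]
  -- the quadratic identity
  have hq0 : ∀ y z m, B (g (q y + r y z)) (a m (g (q y + r y z)))
      = B (g (r y z)) (a m (g (r y z))) := by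
    intro y z m
    have h1 : B (g (q y)) (a m (g (q y))) = 0 := P1 m _ (hgq y) _ (hgq y)
    have h2 : B (g (q y)) (a m (g (r y z))) = 0 := by
      rw [← S.ha]
      simp only [r, map_sum, map_smul]
      refine Finset.sum_eq_zero fun i _ => ?_
      rw [haa m i _ (hgq y) _ (hwY y)]
      simp
    have h3 : B (g (r y z)) (a m (g (q y))) = 0 := by rw [S.psi_symm]; exact h2
    simp only [map_add, LinearMap.add_apply, h1, h2, h3]
    simp
  let Ψ : ι → V → F := fun m p => B (g p) (a m (g p))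
  have hQid : ∀ y z, (∑ m, (if low m then y m else 0) * Ψ m (r y z))
      + ∑ m, (if low m then (0 : F) else z m) • Ψ m (r y z) = 0 := by
    intro y z
    have h1 := S.walk_identity (mix y z) (t + 1) (t + 1)
    have h2 : walk a g κ (mix y z) (t + 1) = g (q y + r y z) := by
      rw [← hcomb]; rfl
    rw [h2, comb_apply, map_sum] at h1
    refine Eq.trans ?_ h1
    rw [← Finset.sum_add_distrib]
    refine Finset.sum_congr rfl fun m _ => ?_
    rw [map_smul, hq0]
    by_cases hm : low m <;> simp [mix, hm, Ψ]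
  -- cross form
  let Φ : ι → V → V → F := fun m p p' => B (g p) (a m (g p'))
  have hΨadd : ∀ m (α β : F) (p p' : V), Ψ m (α • p + β • p')
      = α ^ 2 * Ψ m p + 2 * α * β * Φ m p p' + β ^ 2 * Ψ m p' := by
    intro m α β p p'
    have hs : B (g p') (a m (g p)) = B (g p) (a m (g p')) := S.psi_symm m p' p
    simp only [Ψ, Φ, map_add, map_smul, LinearMap.add_apply, LinearMap.smul_apply, hs, smul_eq_mul]
    ring
  have hΨzero : ∀ m, Ψ m 0 = 0 := by intro m; simp [Ψ]
  have hΦzero : ∀ m p, Φ m 0 p = 0 := by intro m p; simp [Φ]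
  have hΦzero' : ∀ m p, Φ m p 0 = 0 := by intro m p; simp [Φ]
  have htwo : ∀ x : F, 2 * x = 0 → x = 0 := fun x hx => (mul_eq_zero.1 hx).resolve_left S.two
  let Λ : (ι → F) → V → F := fun y p => ∑ m, (if low m then y m else 0) * Ψ m p
  have hpair : ∀ y i k, ¬ low i → ¬ low k → ∀ α β : F,
      Λ y (α • a i (walk a g κ y t) + β • a k (walk a g κ y t))
        + (α * Ψ i (α • a i (walk a g κ y t) + β • a k (walk a g κ y t))
          + β * Ψ k (α • a i (walk a g κ y t) + β • a k (walk a g κ y t))) = 0 := by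
    intro y i k hi hk α β
    have h1 := hQid y (Pi.single i α + Pi.single k β)
    rw [sum_pair low i k hi hk, hrpair y i k hi hk] at h1
    exact h1
  have hΛadd : ∀ y (α : F) (p : V), Λ y (α • p) = α ^ 2 * Λ y p := by
    intro y α p
    simp only [Λ]
    rw [Finset.mul_sum]
    refine Finset.sum_congr rfl fun m _ => ?_
    have := hΨadd m α 0 p p
    simp only [zero_smul, add_zero] at this
    rw [this]; ring
  have hΨsm : ∀ m (α : F) (p : V), Ψ m (α • p) = α ^ 2 * Ψ m p := by
    intro m α p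
    have := hΨadd m α 0 p p
    simp only [zero_smul, add_zero] at this
    rw [this]; ring
  -- (b1)
  have hb1 : ∀ y i, ¬ low i → Ψ i (a i (walk a g κ y t)) = 0 ∧ Λ y (a i (walk a g κ y t)) = 0 := by
    intro y i hi
    have h1 := hpair y i i hi hi 1 0
    have h2 := hpair y i i hi hi (-1) 0
    simp only [zero_smul, add_zero, zero_mul] at h1 h2
    rw [hΛadd, hΨsm] at h1 h2
    have h3 : 2 * Ψ i (a i (walk a g κ y t)) = 0 := by linear_combination h1 - h2
    have h4 : 2 * Λ y (a i (walk a g κ y t)) = 0 := by linear_combination h1 + h2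
    exact ⟨htwo _ h3, htwo _ h4⟩
  -- (b2)
  have hb2 : ∀ y i m, ¬ low i → low m → Ψ m (a i (walk a g κ y t)) = 0 := by
    intro y i m hi hm
    by_cases hp : a i (walk a g κ y t) = 0
    · rw [hp]; exact hΨzero m
    obtain ⟨φ, hφ⟩ : ∃ φ : V →ₗ[F] F, φ (a i (walk a g κ y t)) ≠ 0 := by
      by_contra hcon
      push Not at hcon
      exact hp ((Module.forall_dual_apply_eq_zero_iff F _).1 hcon)
    set p := a i (walk a g κ y t) with hpdef
    have hL : ∀ y', Λ y' p = 0 ∨ φ (a i (walk a g κ y' t)) = 0 := by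
      intro y'
      obtain ⟨c, hc⟩ := hline i _ (hwY y) hp _ (hwY y')
      rw [← hpdef] at hc
      have h1 := (hb1 y' i hi).2
      rw [hc, hΛadd] at h1
      rcases mul_eq_zero.1 h1 with h | h
      · right
        have : c = 0 := by simpa using h
        rw [hc, this]; simp
      · left; exact h
    have hpolyΛ : IsPoly (fun y' : ι → F => Λ y' p) := by
      refine IsPoly.sum _ fun j _ => ?_
      by_cases hj : low j
      · simpa [hj] using (IsPoly.coord j).mul (IsPoly.const (Ψ j p))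
      · simpa [hj] using (IsPoly.const (ι := ι) (0 : F))
    have hΛ0 : ∀ y', Λ y' p = 0 := by
      by_contra hcon
      push Not at hcon
      obtain ⟨y', h1, h2⟩ := IsPoly.exists_mul_ne_zero hpolyΛ
        (walk_isPoly (a := a) (g := g) κ t (φ ∘ₗ a i)) hcon ⟨y, by simpa using hφ⟩
      rcases hL y' with h | h
      · exact h1 h
      · exact h2 (by simpa using h)
    have h5 := hΛ0 (Pi.single m 1)
    simp only [Λ] at h5
    rw [Finset.sum_eq_single m] at h5
    · simpa [hm] using h5
    · intro j _ hjm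
      simp [Pi.single_eq_of_ne hjm]
    · intro h; exact absurd (Finset.mem_univ m) h
  -- anisotropy
  have hAn : ∀ l, (∃ v ∈ Y, a l v ≠ 0) → ∀ i, ∀ u ∈ Y, Ψ l (a i u) = 0 →
      ∀ k, ∀ w ∈ Y, Φ l (a k w) (a i u) = 0 := by
    rintro l ⟨v0, hv0, hv0'⟩ i u hu h0 k w hw
    have hYp : ∀ v ∈ Y, B v (a l (g (a i u))) = 0 := by
      intro v hv
      rw [← S.ha]
      exact haa l i v hv u hu
    have hYp' : ∀ v ∈ Y, B (g (a i u)) (a l v) = 0 := by
      intro v hv
      rw [← S.ha, S.symm]
      exact hYp v hv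
    have hiso : ∀ v ∈ Y ⊔ Submodule.span F {g (a i u)}, ∀ w ∈ Y ⊔ Submodule.span F {g (a i u)},
        B v (a l w) = 0 := by
      intro v hv w hw
      obtain ⟨v1, hv1, v2, hv2, rfl⟩ := Submodule.mem_sup.1 hv
      obtain ⟨w1, hw1, w2, hw2, rfl⟩ := Submodule.mem_sup.1 hw
      obtain ⟨c, rfl⟩ := Submodule.mem_span_singleton.1 hv2
      obtain ⟨d, rfl⟩ := Submodule.mem_span_singleton.1 hw2
      simp only [map_add, map_smul, LinearMap.add_apply, LinearMap.smul_apply]
      rw [P1 l v1 hv1 w1 hw1, hYp v1 hv1, hYp' w1 hw1, show B (g (a i u)) (a l (g (a i u))) = 0 from h0]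
      simp
    obtain ⟨c, hc⟩ := S.hW l _ hiso v0 (Submodule.mem_sup_left hv0) hv0' (g (a i u))
      (Submodule.mem_sup_right (Submodule.mem_span_singleton_self _))
    change B (g (a k w)) (a l (g (a i u))) = 0
    rw [hc, map_smul, S.hg, haa k l w hw v0 hv0, smul_zero]
  have hΦsymm : ∀ m p p', Φ m p p' = Φ m p' p := fun m p p' => S.psi_symm m p p'
  -- (b3)
  have hb3 : ∀ y i l, ¬ low i → ¬ low l → Ψ l (a i (walk a g κ y t)) = 0 := by
    intro y i l hi hl
    set u := walk a g κ y t with hu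
    have huY : u ∈ Y := hwY y
    have hcross : ∀ m, (low m ∨ m = i ∨ m = l) → Φ m (a i u) (a l u) = 0 := by
      rintro m (hm | rfl | rfl)
      · have h1 : ∃ v ∈ Y, a m v ≠ 0 := by
          obtain ⟨v, hv, hv'⟩ := hm
          exact ⟨v, hYY hv, hv'⟩
        exact hAn m h1 l u huY (hb2 y l m hl hm) i u huY
      · by_cases h0 : a m u = 0
        · rw [h0]; exact hΦzero _ _
        · rw [hΦsymm]
          exact hAn m ⟨u, huY, h0⟩ m u huY (hb1 y m hi).1 l u huY
      · by_cases h0 : a m u = 0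
        · rw [h0]; exact hΦzero' _ _
        · exact hAn m ⟨u, huY, h0⟩ m u huY (hb1 y m hl).1 i u huY
    have hΛr : ∀ α β : F, Λ y (α • a i u + β • a l u) = 0 := by
      intro α β
      simp only [Λ]
      refine Finset.sum_eq_zero fun m _ => ?_
      by_cases hm : low m
      · rw [hΨadd, hb2 y i m hi hm, hb2 y l m hl hm, hcross m (Or.inl hm)]
        simp
      · simp [hm]
    have hrel : ∀ α β : F, α * (β ^ 2 * Ψ i (a l u)) + β * (α ^ 2 * Ψ l (a i u)) = 0 := by
      intro α β
      have h1 := hpair y i l hi hl α β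
      rw [← hu, hΛr, hΨadd, hΨadd, hcross i (Or.inr (Or.inl rfl)), hcross l (Or.inr (Or.inr rfl)),
        (hb1 y i hi).1, (hb1 y l hl).1] at h1
      linear_combination h1
    have h1 := hrel 1 1
    have h2 := hrel 1 (-1)
    have h3 : 2 * Ψ l (a i u) = 0 := by linear_combination h1 - h2
    exact htwo _ h3
  -- (b4)
  have hb4 : ∀ y l, (∀ v ∈ Y, a l v = 0) → ∀ z, Ψ l (r y z) = 0 := by
    intro y l hl z
    have hnlow : ¬ low l := by
      rintro ⟨v, hv, hv'⟩
      exact hv' (hl v (hYY hv))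
    have hr1 : r y (z + Pi.single l 1) = r y z := by
      simp only [r]
      refine Finset.sum_congr rfl fun j _ => ?_
      by_cases hjl : j = l
      · subst hjl
        rw [hl _ (hwY y)]; simp
      · simp [Pi.single_eq_of_ne hjl]
    have h1 := hQid y z
    have h2 := hQid y (z + Pi.single l 1)
    rw [hr1] at h2
    have h3 : (∑ m, (if low m then (0 : F) else (z + Pi.single l 1 : ι → F) m) • Ψ m (r y z))
        = (∑ m, (if low m then (0 : F) else z m) • Ψ m (r y z)) + Ψ l (r y z) := by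
      have : Ψ l (r y z) = ∑ m, (if m = l then Ψ m (r y z) else 0) := by simp
      rw [this, ← Finset.sum_add_distrib]
      refine Finset.sum_congr rfl fun j _ => ?_
      by_cases hjl : j = l
      · subst hjl
        simp [hnlow, add_mul]
      · simp [hjl]
    rw [h3] at h2
    linear_combination h2 - h1
  -- (b')
  have hbb : ∀ l i k, ∀ v ∈ Y, ∀ w ∈ Y, B (g (a i v)) (a l (g (a k w))) = 0 := by
    intro l i k v hv w hw
    by_cases hi : low i
    · rw [← S.ha]
      exact haa l k _ (hglow i hi v hv) w hw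
    by_cases hk : low k
    · rw [S.psi_symm, ← S.ha]
      exact haa l i _ (hglow k hk w hw) v hv
    by_cases hiv : a i v = 0
    · simp [hiv]
    by_cases hkw : a k w = 0
    · simp [hkw]
    obtain ⟨y, h1, h2⟩ := exists_simul (a := a) (g := g) (κ := κ) t i k
      (P2 i (hnl i hi) ⟨v, hv, hiv⟩) (P2 k (hnl k hk) ⟨w, hw, hkw⟩)
    obtain ⟨c, hc⟩ := hline i _ (hwY y) h1 v hv
    obtain ⟨d, hd⟩ := hline k _ (hwY y) h2 w hw
    suffices hmain : Φ l (a i (walk a g κ y t)) (a k (walk a g κ y t)) = 0 by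
      rw [hc, hd]
      simp only [map_smul, LinearMap.smul_apply]
      rw [show B (g (a i (walk a g κ y t))) (a l (g (a k (walk a g κ y t)))) = 0 from hmain]
      simp
    by_cases hlY : ∀ v ∈ Y, a l v = 0
    · have h3 : ∀ α β : F, Ψ l (α • a i (walk a g κ y t) + β • a k (walk a g κ y t)) = 0 := by
        intro α β
        rw [← hrpair y i k hi hk]
        exact hb4 y l hlY _
      have h10 := h3 1 0
      have h01 := h3 0 1
      have h11 := h3 1 1
      rw [hΨadd] at h10 h01 h11
      have : 2 * Φ l (a i (walk a g κ y t)) (a k (walk a g κ y t)) = 0 := by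
        linear_combination h11 - h10 - h01
      exact htwo _ this
    · push Not at hlY
      have h5 : Ψ l (a k (walk a g κ y t)) = 0 := by
        by_cases hl : low l
        · exact hb2 y k l hk hl
        · exact hb3 y k l hk hl
      exact hAn l hlY k _ (hwY y) h5 i _ (hwY y)
  constructor
  · -- P1'
    intro l
    have hgen : ∀ v, (∀ w ∈ K, B v (a l w) = 0) → (∀ k, ∀ w ∈ Y, B v (a l (g (a k w))) = 0) →
        ∀ w ∈ stepS a g K Y, B v (a l w) = 0 := by
      intro v h1 h2 w hw
      have : stepS a g K Y ≤ LinearMap.ker ((B v) ∘ₗ a l) := by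
        refine sup_le (fun w hw => ?_) (iSup_le fun k => ?_)
        · simpa using h1 w hw
        · rintro _ ⟨w, hw, rfl⟩
          simpa using h2 k w hw
      simpa using this hw
    intro v hv w hw
    change v ∈ stepS a g K Y at hv
    change w ∈ stepS a g K Y at hw
    have h1 : ∀ x ∈ K, B x (a l w) = 0 := by
      intro x hx
      refine hgen x (fun w hw => P1 l x (hKY hx) w (hKY hw)) (fun k w hw => ?_) w hw
      rw [← S.ha]
      exact haa l k x (hKY hx) w hw
    have h2 : ∀ i, ∀ x ∈ Y, B (g (a i x)) (a l w) = 0 := by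
      intro i x hx
      refine hgen _ (fun w hw => ?_) (fun k w hw => hbb l i k x hx w hw) w hw
      rw [← S.ha, S.symm, ← S.ha]
      exact haa l i w (hKY hw) x hx
    have hsw : ∀ x x', B x (a l x') = B x' (a l x) := by
      intro x x'
      rw [← S.ha, S.symm]
    rw [hsw]
    refine hgen w (fun x hx => ?_) (fun k x hx => ?_) v hv
    · rw [hsw]; exact h1 x hx
    · rw [hsw]; exact h2 k x hx
  · -- P2'
    rintro i hi ⟨v, hv, hv'⟩
    change v ∈ stepS a g K Y at hv
    have hex : ∃ j, ∃ w ∈ Y, a i (g (a j w)) ≠ 0 := by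
      by_contra hcon
      push Not at hcon
      apply hv'
      have : stepS a g K Y ≤ LinearMap.ker (a i) := by
        refine sup_le (fun w hw => ?_) (iSup_le fun k => ?_)
        · simpa using hi w (hKY hw)
        · rintro _ ⟨w, hw, rfl⟩
          simpa using hcon k w hw
      simpa using this hv
    obtain ⟨j, w, hw, hjw⟩ := hex
    have hj : ¬ low j := by
      intro hj
      exact hjw (hi _ (hglow j hj w hw))
    have hjw0 : a j w ≠ 0 := by
      intro h0; apply hjw; rw [h0]; simp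
    obtain ⟨y, hy⟩ := P2 j (hnl j hj) ⟨w, hw, hjw0⟩
    obtain ⟨c, hc⟩ := hline j _ (hwY y) hy w hw
    refine ⟨mix y (Pi.single j 1 + Pi.single j 0), ?_⟩
    have h2 : walk a g κ (mix y (Pi.single j 1 + Pi.single j 0)) (t + 1)
        = g (q y + r y (Pi.single j 1 + Pi.single j 0)) := by
      rw [← hcomb]; rfl
    rw [h2, hrpair y j j hj hj, map_add, map_add, hi _ (hgq y)]
    intro h0
    apply hjw
    rw [hc]
    simp only [one_smul, zero_smul, add_zero, zero_add] at h0
    rw [map_smul, map_smul, h0, smul_zero]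

end Pool.Agent.H20.Edm
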